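import Pool.Agent.H84.SL.Targets

/-!
Row TRC of the board `slg_modules`: the value of the trace at a zero of `u`.
-/

set_option autoImplicit false

namespace Pool.Agent.H11.SL

open MvPolynomial SC Pool.Agent.H27.LV Pool.Agent.H84.SM Pool.Agent.H84.SL
open Pool.Agent.H92.OD (HS cf sg uu Lat geO IsO DF)

section

variable {k K : Type} [Field k] [Field K] [Algebra k K]

theorem cf_alg (f : K →ₐ[k] HS k) (c : k) (r : ℚ) :
    cf (f (algebraMap k K c)) r = if r = 0 then c else 0 := by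
  rw [AlgHom.commutes, Pool.Agent.H92.OD.algebraMap_HS, Pool.Agent.H92.OD.cf_sg]
  rfl

/-- the coefficients at nonpositive exponents of an element with value `c` at `v` -/
theorem cf_nonpos (v : DV k K) (f : K →ₐ[k] HS k) (e : ℤ) (he : 0 < e)
    (hf : ∀ z : K, z ≠ 0 → IsO (f z) ((v.ord z : ℚ) / (e : ℚ))) (z : K) (c : k)
    (h : ge v 1 (z - algebraMap k K c)) (r : ℚ) (hr : r ≤ 0) :
    cf (f z) r = if r = 0 then c else 0 := by
  have h1 : cf (f (z - algebraMap k K c)) r = 0 := by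
    rcases h with h | h
    · rw [h, map_zero]
      rfl
    · by_cases h0 : z - algebraMap k K c = 0
      · rw [h0, map_zero]
        rfl
      · refine (hf _ h0).2 r (lt_of_le_of_lt hr ?_)
        have h2 : (0 : ℚ) < (v.ord (z - algebraMap k K c) : ℚ) := by
          exact_mod_cast (by linarith : (0 : ℤ) < v.ord (z - algebraMap k K c))
        have h3 : (0 : ℚ) < (e : ℚ) := by exact_mod_cast he
        positivity
  rw [map_sub, Pool.Agent.H92.OD.cf_sub, cf_alg, sub_eq_zero] at h1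
  exact h1

/-- conversely -/
theorem ge_of_cf (v : DV k K) (f : K →ₐ[k] HS k) (e : ℤ) (he : 0 < e)
    (hf : ∀ z : K, z ≠ 0 → IsO (f z) ((v.ord z : ℚ) / (e : ℚ))) (z : K) (c : k)
    (h : ∀ r : ℚ, r ≤ 0 → cf (f z) r = if r = 0 then c else 0) :
    ge v 1 (z - algebraMap k K c) := by
  by_cases h0 : z - algebraMap k K c = 0
  · exact Or.inl h0
  · refine Or.inr ?_
    have h1 := (hf _ h0).1
    by_contra hlt
    have h2 : v.ord (z - algebraMap k K c) ≤ 0 := by linarith [not_le.1 hlt]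
    have h3 : ((v.ord (z - algebraMap k K c) : ℚ) / (e : ℚ)) ≤ 0 := by
      have h4 : (v.ord (z - algebraMap k K c) : ℚ) ≤ 0 := by exact_mod_cast h2
      have h5 : (0 : ℚ) < (e : ℚ) := by exact_mod_cast he
      exact div_nonpos_of_nonpos_of_nonneg h4 h5.le
    apply h1
    rw [map_sub, Pool.Agent.H92.OD.cf_sub, cf_alg, h _ h3, sub_self]

end

theorem pf_TRC (hEMB : T_EMB) : T_TRC := by
  intro k K _ _ _ _ _ _ htr D hD u F hu hF z c hz w hw
  obtain ⟨φ, h1, h2⟩ := hEMB k K htr D hD u F hu hF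
  refine ge_of_cf w (φ w) (w.ord u) hw (h1 w hw).2.2 _ _ fun r hr => ?_
  obtain ⟨h3, h4⟩ := h2 z w hw
  by_cases hr0 : ∃ m : ℤ, r = (m : ℚ)
  · obtain ⟨m, rfl⟩ := hr0
    rw [h3 m]
    have h5 : ∀ v : DV k K, ((max 0 (v.ord u) : ℤ) : k) * cf (φ v z) (m : ℚ) =
        if (m : ℚ) = 0 then ((max 0 (v.ord u) : ℤ) : k) * c v else 0 := by
      intro v
      by_cases hv : 0 < v.ord u
      · rw [cf_nonpos v (φ v) (v.ord u) hv (h1 v hv).2.2 z (c v) (hz v hv) _ hr]
        split_ifs <;> simp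
      · rw [max_eq_left (not_lt.1 hv)]
        simp
    rw [finsum_congr h5]
    split_ifs
    · rfl
    · exact finsum_zero
  · rw [h4 r hr0]
    have h6 : r ≠ 0 := fun h => hr0 ⟨0, by simpa using h⟩
    rw [if_neg h6]

end Pool.Agent.H11.SL
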