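import Pool.Agent.H84.SL.Targets

/-!
Row X1 of the board `slg_modules`: the curves of bounded degree which are not of log general type.
-/

set_option autoImplicit false

namespace Pool.Agent.H11.SL

open MvPolynomial SC Pool.Agent.H27.LV Pool.Agent.H84.SM Pool.Agent.H84.SL

section

variable {k K : Type} [Field k] [Field K] [Algebra k K]

theorem aeval_scale (Ψ : MvPolynomial (Fin 3) k) (N : ℕ) (h : Ψ.IsHomogeneous N) (z : K)
    (y : Fin 3 → K) : aeval (fun i => z * y i) Ψ = z ^ N * aeval y Ψ := by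
  rw [aeval_def, aeval_def, eval₂_eq', eval₂_eq', Finset.mul_sum]
  refine Finset.sum_congr rfl fun s hs => ?_
  have h1 : ∑ i, s i = N := by
    have h2 := h (mem_support_iff.1 hs)
    rw [Finsupp.weight_apply, Finsupp.sum_fintype _ _ (by intro i; simp)] at h2
    simpa using h2
  rw [← h1, ← Finset.prod_pow_eq_pow_sum]
  simp only [mul_pow, Finset.prod_mul_distrib]
  ring

theorem natDegree_aeval_le (G : MvPolynomial (Fin 3) k) (d e : ℕ) (h : G.IsHomogeneous d)
    (p : Fin 3 → Polynomial k) (hp : ∀ i, (p i).natDegree ≤ e) :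
    (aeval p G).natDegree ≤ d * e := by
  rw [aeval_def, eval₂_eq']
  refine Polynomial.natDegree_sum_le_of_forall_le _ _ fun s hs => ?_
  have h1 : ∑ i, s i = d := by
    have h2 := h (mem_support_iff.1 hs)
    rw [Finsupp.weight_apply, Finsupp.sum_fintype _ _ (by intro i; simp)] at h2
    simpa using h2
  have h2 : (algebraMap k (Polynomial k) (coeff s G)).natDegree = 0 := by
    rw [Polynomial.algebraMap_eq, Polynomial.natDegree_C]
  refine Polynomial.natDegree_mul_le.trans ?_
  rw [h2, zero_add]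
  refine (Polynomial.natDegree_prod_le _ _).trans ?_
  rw [← h1, Finset.sum_mul]
  refine Finset.sum_le_sum fun i _ => ?_
  exact Polynomial.natDegree_pow_le.trans (Nat.mul_le_mul_left _ (hp i))

end

theorem pf_X1 (hP1 : T_P1) (hFML : T_FML) : T_X1 := by
  intro k _ _ _ G d hd hS e0
  have hF := hFML k G d hd hS
  choose! N Ψ h0 hh hΨ using hF
  have hmem : ∀ I ∈ Finset.Icc 1 e0 ×ˢ Finset.range (d * e0 + 1), 1 ≤ I.1 := by
    intro I hI
    exact (Finset.mem_Icc.1 (Finset.mem_product.1 hI).1).1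
  refine ⟨∑ I ∈ Finset.Icc 1 e0 ×ˢ Finset.range (d * e0 + 1), N I.1 I.2,
    ∏ I ∈ Finset.Icc 1 e0 ×ˢ Finset.range (d * e0 + 1), Ψ I.1 I.2, ?_, ?_, ?_⟩
  · exact Finset.prod_ne_zero_iff.2 fun I hI => h0 I.1 I.2 (hmem I hI)
  · exact IsHomogeneous.prod _ _ _ fun I hI => hh I.1 I.2 (hmem I hI)
  · intro K _ _ _ htr D hD x S hPr hCrv hdeg hneg
    obtain ⟨p, t, z, c, m, hz, hc, hx, he, hpd, hpe, hp0, hG⟩ :=
      hP1 k G d (by omega) hS K htr D hD x S hPr hCrv hneg
    have hm : m ≤ d * e0 := by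
      have h1 := natDegree_aeval_le G d (deg k x) hS.1 p hpd
      rw [hG, Polynomial.natDegree_C_mul_X_pow m c hc] at h1
      exact h1.trans (Nat.mul_le_mul_left d hdeg)
    have hI : (deg k x, m) ∈ Finset.Icc 1 e0 ×ˢ Finset.range (d * e0 + 1) :=
      Finset.mem_product.2 ⟨Finset.mem_Icc.2 ⟨he, hdeg⟩, Finset.mem_range.2 (by
        show m < d * e0 + 1
        omega)⟩
    have h1 := hΨ (deg k x) m he p c hc hpd hpe hp0 hG
    have h2 : aeval x (Ψ (deg k x) m) = 0 := by
      have h3 : x = fun i => z * Polynomial.aeval t (p i) := funext hx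
      rw [h3, aeval_scale _ _ (hh _ _ (by rw [← h3]; exact he))]
      have h4 : aeval (fun i => Polynomial.aeval t (p i)) (Ψ (deg k x) m) =
          Polynomial.aeval t (aeval p (Ψ (deg k x) m)) := by
        rw [← comp_aeval_apply]
      rw [← h3, h4, h1, map_zero, mul_zero]
    rw [map_prod]
    exact Finset.prod_eq_zero hI h2

end Pool.Agent.H11.SL
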